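import Mathlib
import Pool.Agent.W586.SK.Stm
import Pool.Agent.H888R2.KT.N10

/-!
# Project SK, part PAR: parity decomposition
-/

set_option autoImplicit false

namespace Pool.Agent.W608.SK

open MeasureTheory Set
open scoped ENNReal InnerProductSpace
open Pool.Agent.H212R2.KLS (mu Bdd)
open Pool.Agent.H888R2.KT (LC)
open Pool.Agent.W586.SK

variable {n : ℕ} {ρ : E n → ℝ}

theorem finm (hρ : LC ρ) : IsFiniteMeasure (mu ρ) := ⟨lt_top_iff_ne_top.mpr hρ.fin⟩

theorem ae_ne (hρ : LC ρ) : ∀ᵐ x ∂(mu ρ), ρ x ≠ 0 := by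
  unfold mu
  rw [ae_withDensity_iff (hρ.meas.ennreal_ofReal)]
  refine Filter.Eventually.of_forall fun x hx h => hx ?_
  rw [h, ENNReal.ofReal_zero]

theorem int_cont (hρ : LC ρ) {g : E n → ℝ} (hg : Continuous g) :
    Integrable g (mu ρ) := by
  have := finm hρ
  obtain ⟨R, hR⟩ := hρ.bdd
  obtain ⟨C, hC⟩ := (isCompact_closedBall (0 : E n) R).exists_bound_of_continuousOn
    hg.continuousOn
  refine Integrable.of_bound hg.aestronglyMeasurable C ?_
  filter_upwards [ae_ne hρ] with x hx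
  refine hC x ?_
  rw [mem_closedBall_zero_iff]
  by_contra h
  exact hx (hR x (not_le.mp h))

theorem grad_cont {v : E n → ℝ} (hv : ContDiff ℝ 1 v) :
    Continuous (fun x => ‖fderiv ℝ v x‖ ^ 2) :=
  (hv.continuous_fderiv (by norm_num)).norm.pow 2

theorem rf_rf (i : Fin n) (x : E n) : rf i (rf i x) = x := by
  ext j
  rw [rf_apply, rf_apply]
  split_ifs <;> simp

theorem rf_comm (i j : Fin n) (x : E n) : rf i (rf j x) = rf j (rf i x) := by
  ext k
  simp only [rf_apply]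
  split_ifs <;> rfl

theorem rho_rf (hS : Sy ρ) (i : Fin n) (x : E n) : ρ (rf i x) = ρ x := by
  refine hS.inv 1 x (rf i x) fun j => ?_
  rw [rf_apply]
  split_ifs <;> simp

theorem cd_rf {f : E n → ℝ} (hf : ContDiff ℝ 1 f) (i : Fin n) :
    ContDiff ℝ 1 (fun y => f (rf i y)) :=
  hf.comp (rf i).contDiff

theorem fderiv_rf {f : E n → ℝ} (hf : ContDiff ℝ 1 f) (i : Fin n) (x : E n) :
    fderiv ℝ (fun y => f (rf i y)) x =
      (fderiv ℝ f (rf i x)).comp (rf i).toLinearIsometry.toContinuousLinearMap := by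
  have h1 : HasFDerivAt f (fderiv ℝ f (rf i x)) (rf i x) :=
    (hf.differentiable (by norm_num) (rf i x)).hasFDerivAt
  have h2 : HasFDerivAt (fun y : E n => rf i y)
      ((rf i).toLinearIsometry.toContinuousLinearMap) x :=
    (rf i).toLinearIsometry.toContinuousLinearMap.hasFDerivAt
  exact (h1.comp x h2).fderiv

theorem norm_fderiv_rf {f : E n → ℝ} (hf : ContDiff ℝ 1 f) (i : Fin n) (x : E n) :
    ‖fderiv ℝ (fun y => f (rf i y)) x‖ = ‖fderiv ℝ f (rf i x)‖ := by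
  rw [fderiv_rf hf]
  exact ContinuousLinearMap.opNorm_comp_linearIsometryEquiv _ (rf i)

theorem par_dual (a b : E n →L[ℝ] ℝ) :
    ‖a + b‖ ^ 2 + ‖a - b‖ ^ 2 = 2 * (‖a‖ ^ 2 + ‖b‖ ^ 2) := by
  have h := parallelogram_law_with_norm ℝ ((InnerProductSpace.toDual ℝ (E n)).symm a)
    ((InnerProductSpace.toDual ℝ (E n)).symm b)
  rw [← map_add, ← map_sub, LinearIsometryEquiv.norm_map, LinearIsometryEquiv.norm_map,
    LinearIsometryEquiv.norm_map, LinearIsometryEquiv.norm_map] at h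
  nlinarith [h]

theorem step (hS : Sy ρ) (hρ : LC ρ) (L : ℝ) (i : Fin n)
    (ho : ∀ f : E n → ℝ, ContDiff ℝ 1 f → (∀ x, f (rf i x) = - f x) →
      ∫ x, f x ^ 2 ∂(mu ρ) ≤ L * ∫ x, ‖fderiv ℝ f x‖ ^ 2 ∂(mu ρ))
    (f : E n → ℝ) (hf : ContDiff ℝ 1 f)
    (he : ∃ c : ℝ, ∫ x, ((f x + f (rf i x)) / 2 - c) ^ 2 ∂(mu ρ) ≤
      L * ∫ x, ‖fderiv ℝ (fun y => (f y + f (rf i y)) / 2) x‖ ^ 2 ∂(mu ρ)) :
    ∃ c : ℝ, ∫ x, (f x - c) ^ 2 ∂(mu ρ) ≤ L * ∫ x, ‖fderiv ℝ f x‖ ^ 2 ∂(mu ρ) := by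
  obtain ⟨c, hc⟩ := he
  refine ⟨c, ?_⟩
  have hg : ContDiff ℝ 1 (fun y => f (rf i y)) := cd_rf hf i
  have hfe : ContDiff ℝ 1 (fun y => (f y + f (rf i y)) / 2) := (hf.add hg).div_const 2
  have hfo : ContDiff ℝ 1 (fun y => (f y - f (rf i y)) / 2) := (hf.sub hg).div_const 2
  have h1 := ho (fun y => (f y - f (rf i y)) / 2) hfo (fun x => by simp only [rf_rf]; ring)
  have key := Pool.Agent.H888R2.KT.N10x.int_comp hρ.meas (rf i) (rho_rf hS i)
  -- the square
  have hsq : ∫ x, (f x - c) ^ 2 ∂(mu ρ) =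
      ∫ x, ((f x + f (rf i x)) / 2 - c) ^ 2 ∂(mu ρ) +
        ∫ x, ((f x - f (rf i x)) / 2) ^ 2 ∂(mu ρ) := by
    have e1 := key (fun x => (f x - c) ^ 2)
    have i1 : Integrable (fun x => ((f x + f (rf i x)) / 2 - c) ^ 2) (mu ρ) :=
      int_cont hρ ((hfe.continuous.sub continuous_const).pow 2)
    have i2 : Integrable (fun x => ((f x - f (rf i x)) / 2) ^ 2) (mu ρ) :=
      int_cont hρ (hfo.continuous.pow 2)
    have i3 : Integrable (fun x => (f x - c) ^ 2) (mu ρ) :=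
      int_cont hρ ((hf.continuous.sub continuous_const).pow 2)
    have i4 : Integrable (fun x => (f (rf i x) - c) ^ 2) (mu ρ) :=
      int_cont hρ ((hg.continuous.sub continuous_const).pow 2)
    have e2 : ∫ x, ((f x - c) ^ 2 + (f (rf i x) - c) ^ 2) ∂(mu ρ) =
        ∫ x, 2 * (((f x + f (rf i x)) / 2 - c) ^ 2 + ((f x - f (rf i x)) / 2) ^ 2) ∂(mu ρ) := by
      congr 1
      funext x
      ring
    rw [integral_add i3 i4, integral_const_mul, integral_add i1 i2] at e2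
    have e1' : ∫ x, (f (rf i x) - c) ^ 2 ∂(mu ρ) = ∫ x, (f x - c) ^ 2 ∂(mu ρ) := e1
    linarith
  -- the gradient
  have hgr : ∫ x, ‖fderiv ℝ (fun y => (f y + f (rf i y)) / 2) x‖ ^ 2 ∂(mu ρ) +
      ∫ x, ‖fderiv ℝ (fun y => (f y - f (rf i y)) / 2) x‖ ^ 2 ∂(mu ρ) =
      ∫ x, ‖fderiv ℝ f x‖ ^ 2 ∂(mu ρ) := by
    have e1 : ∫ x, ‖fderiv ℝ f (rf i x)‖ ^ 2 ∂(mu ρ) = ∫ x, ‖fderiv ℝ f x‖ ^ 2 ∂(mu ρ) :=
      key (fun x => ‖fderiv ℝ f x‖ ^ 2)
    have i1 := int_cont hρ (grad_cont hfe)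
    have i2 := int_cont hρ (grad_cont hfo)
    have i3 := int_cont hρ (grad_cont hf)
    have i4 : Integrable (fun x => ‖fderiv ℝ f (rf i x)‖ ^ 2) (mu ρ) :=
      int_cont hρ ((grad_cont hf).comp (rf i).continuous)
    have e2 : ∫ x, 2 * (‖fderiv ℝ (fun y => (f y + f (rf i y)) / 2) x‖ ^ 2 +
        ‖fderiv ℝ (fun y => (f y - f (rf i y)) / 2) x‖ ^ 2) ∂(mu ρ) =
        ∫ x, (‖fderiv ℝ f x‖ ^ 2 + ‖fderiv ℝ f (rf i x)‖ ^ 2) ∂(mu ρ) := by
      congr 1
      funext x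
      have d1 : HasFDerivAt f (fderiv ℝ f x) x :=
        (hf.differentiable (by norm_num) x).hasFDerivAt
      have d2 : HasFDerivAt (fun y => f (rf i y)) (fderiv ℝ (fun y => f (rf i y)) x) x :=
        (hg.differentiable (by norm_num) x).hasFDerivAt
      have d3 : fderiv ℝ (fun y => (f y + f (rf i y)) / 2) x =
          (2 : ℝ)⁻¹ • (fderiv ℝ f x + fderiv ℝ (fun y => f (rf i y)) x) := by
        refine HasFDerivAt.fderiv ?_
        have := (d1.add d2).const_smul (2 : ℝ)⁻¹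
        refine this.congr_of_eventuallyEq (Filter.Eventually.of_forall fun y => ?_)
        simp only [Pi.smul_apply, Pi.add_apply, smul_eq_mul]
        ring
      have d4 : fderiv ℝ (fun y => (f y - f (rf i y)) / 2) x =
          (2 : ℝ)⁻¹ • (fderiv ℝ f x - fderiv ℝ (fun y => f (rf i y)) x) := by
        refine HasFDerivAt.fderiv ?_
        have := (d1.sub d2).const_smul (2 : ℝ)⁻¹
        refine this.congr_of_eventuallyEq (Filter.Eventually.of_forall fun y => ?_)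
        simp only [Pi.smul_apply, Pi.sub_apply, smul_eq_mul]
        ring
      have h3 := par_dual (fderiv ℝ f x) (fderiv ℝ (fun y => f (rf i y)) x)
      rw [norm_fderiv_rf hf] at h3
      rw [d3, d4, norm_smul, norm_smul, mul_pow, mul_pow]
      have h4 : ‖(2 : ℝ)⁻¹‖ ^ 2 = 1 / 4 := by
        rw [Real.norm_eq_abs, sq_abs]; norm_num
      rw [h4]
      linarith
    rw [integral_const_mul, integral_add i1 i2, integral_add i3 i4] at e2
    linarith
  rw [hsq, ← hgr, mul_add]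
  linarith

theorem par : S_PAR := by
  intro n ρ hS hρ L hL ho he
  have main : ∀ m : ℕ, m ≤ n → ∀ f : E n → ℝ, ContDiff ℝ 1 f →
      (∀ i : Fin n, i.val < n - m → ∀ x, f (rf i x) = f x) →
      ∃ c : ℝ, ∫ x, (f x - c) ^ 2 ∂(mu ρ) ≤ L * ∫ x, ‖fderiv ℝ f x‖ ^ 2 ∂(mu ρ) := by
    intro m
    induction m with
    | zero =>
      intro _ f hf h
      exact he f hf fun i x => h i (by simp) x
    | succ m ih =>
      intro hm f hf h
      have hk : n - (m + 1) < n := by omega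
      set i : Fin n := ⟨n - (m + 1), hk⟩ with hi
      refine step hS hρ L i (ho i) f hf ?_
      have hg : ContDiff ℝ 1 (fun y => f (rf i y)) := cd_rf hf i
      have hfe : ContDiff ℝ 1 (fun y => (f y + f (rf i y)) / 2) := (hf.add hg).div_const 2
      refine ih (by omega) _ hfe ?_
      intro j hj x
      by_cases hji : j = i
      · subst hji
        simp only [rf_rf]
        ring
      · have hj2 : j.val < n - (m + 1) := by
          have h1 : j.val ≠ n - (m + 1) := fun h => hji (Fin.ext h)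
          omega
        rw [rf_comm i j x, h j hj2 x, h j hj2 (rf i x)]
  intro f hf
  exact main n le_rfl f hf fun i hi x => absurd hi (by simp)

end Pool.Agent.W608.SK
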